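import Pool.Agent.AddSq.FinalDense
import Pool.Agent.AddSq.CorG19
import Pool.Agent.AddSq.CorG20
import Pool.Agent.AddSq.CorG21
import Pool.Agent.AddSq.CorG22

/-!
# MP_006ce8_co: the value of the add-or-subtract-square game is generically computable
-/

namespace Pool.Agent.Results.MP_006ce8_co.GenericDecidability

open Finset Pool.Agent.AddSq

/-- There is an algorithm `g` (a recursive, not everywhere defined function) which never gives a
wrong value (`0` draw, `1` win, `2` loss), halts on every win and on every loss, and halts on a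
primitive recursive set `D` of draws of natural density one: for every `x`, all but
`C x exp (- (log x) ^ (1/7))` of the positive integers up to `x` lie in `D`. -/
theorem result :
    ∃ g : ℕ →. ℕ, Partrec g ∧ (∀ n, WinsP n → g n = Part.some 1) ∧
      (∀ n, LosesP n → g n = Part.some 2) ∧
      (∀ n, DrawsP n → g n = Part.some 0 ∨ g n = Part.none) ∧
      ∃ D : ℕ → Bool, Primrec D ∧ (∀ n, 1 ≤ n → D n = true → DrawsP n ∧ g n = Part.some 0) ∧
        Filter.Tendsto (fun x : ℕ =>
          (((Icc 1 x).filter (fun n => D n = true)).card : ℝ) / x) Filter.atTop (nhds 1) ∧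
        ∃ C : ℝ, ∀ x : ℕ, 1 ≤ x →
          (((Icc 1 x).filter (fun n => D n = false)).card : ℝ) ≤
            C * x * Real.exp (-(Real.log x) ^ (1 / 7 : ℝ)) :=
  final_of_groups (Co.grpOk_19 grules_wl) (Co.grpOk_20 grules_wl) (Co.grpOk_21 grules_wl)
    (Co.grpOk_22 grules_wl)

end Pool.Agent.Results.MP_006ce8_co.GenericDecidability
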